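import Pool.Agent.X45.EI.Main

/-! The excessive `[m]`-index of trees, and of all bipartite graphs, is given by `t`-splitting sets. -/

namespace Pool.Agent.Results.MP_0e8bc2_co.ExcessiveIndex

open Pool.Agent.X45.EI

universe u

/-- **Q1, affirmative.** For every `m ≥ 1` and every `[m]`-coverable finite tree `T`, the least number
of `[m]`-matchings whose union is `E(T)` is
`max {χ'(T), ⌈|E(T)|/m⌉, s^1(T), ⌈s^2(T)/2⌉, …, ⌈s^(m-1)(T)/(m-1)⌉}`.
The same holds for every `[m]`-coverable finite bipartite graph. -/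
theorem result :
    (∀ (V : Type u) [Finite V] (T : SimpleGraph V) (m : ℕ), 1 ≤ m → T.IsTree → Coverable T m →
      IsLeast {k | CoveredBy T m k} (formula T m)) ∧
    (∀ (V : Type u) [Finite V] (G : SimpleGraph V) (m : ℕ), 1 ≤ m → G.IsBipartite →
      Coverable G m → IsLeast {k | CoveredBy G m k} (formula G m)) := by
  have h : ∀ (V : Type u) [Finite V] (G : SimpleGraph V) (m : ℕ), 1 ≤ m → G.IsBipartite →
      Coverable G m → IsLeast {k | CoveredBy G m k} (formula G m) := fun V _ G m hm hG hcov =>
    ⟨coveredBy_formula hG hm hcov, fun _ hk => formula_le hm hk⟩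
  exact ⟨fun V _ T m hm hT hcov => h V T m hm hT.isBipartite hcov, h⟩

end Pool.Agent.Results.MP_0e8bc2_co.ExcessiveIndex
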